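import Pool.Agent.AQA.Main
import Pool.Agent.helper48.MeanOfFixed

/-!
# MP_00fcbb, PART A: a product of two almost abelian groups has an invariant mean
-/

set_option autoImplicit false

universe u

namespace Pool.Agent.AQA

/-- **COROLLARY of PART A.** A product of two almost abelian groups is amenable. -/
theorem amen {G : Type u} [Group G] {A B : Subgroup G} (hAB : ∀ g : G, ∃ a ∈ A, ∃ b ∈ B, g = a * b)
    (hA : ∃ H : Subgroup G, H ≤ A ∧ (H.subgroupOf A).FiniteIndex ∧
      ∀ x ∈ H, ∀ y ∈ H, x * y = y * x)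
    (hB : ∃ K : Subgroup G, K ≤ B ∧ (K.subgroupOf B).FiniteIndex ∧
      ∀ x ∈ K, ∀ y ∈ K, x * y = y * x) :
    Pool.Agent.AQB.Amen G :=
  Pool.Agent.helper48.MeanOfFixed.amen_of_fixed fun I _ Q hc hcv hn hi =>
    fixedPoint (I := I) hAB hA hB ⟨hc, hcv, hi⟩ hn

end Pool.Agent.AQA
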