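import Pool.Agent.AQA.Defs
import Pool.Agent.AO.Ito

/-!
# MP_00fcbb, PART A, module A3: ultrafilters, Hales-Jewett and Ito
-/

set_option autoImplicit false

universe u v w

namespace Pool.Agent.AQA

open Set Filter Topology

/-- A map to a finite set is constant on a set of the ultrafilter. -/
private theorem exists_fiber {X : Type u} {κ : Type v} [Finite κ] (p : Ultrafilter X) (f : X → κ) :
    ∃ l, {x | f x = l} ∈ p := by
  have h : (⋃ l ∈ (Set.univ : Set κ), {x | f x = l}) ∈ p := by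
    have : (⋃ l ∈ (Set.univ : Set κ), {x | f x = l}) = Set.univ := by
      ext x; simp
    rw [this]
    exact Filter.univ_mem
  obtain ⟨l, -, hl⟩ := (Ultrafilter.finite_biUnion_mem_iff (Set.finite_univ)).1 h
  exact ⟨l, hl⟩

/-- Elements of an abelian group such that no nonempty subproduct lies in a given subgroup of
infinite index. -/
private theorem exists_indep {K : Type u} [CommGroup K] (N : Subgroup K) (hN : ¬ N.FiniteIndex)
    {ι : Type} (s : Finset ι) :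
    ∃ y : ι → K, ∀ S : Finset ι, S ⊆ s → S.Nonempty → ∏ i ∈ S, y i ∉ N := by
  classical
  have : Infinite (K ⧸ N) := by
    by_contra h
    rw [not_infinite_iff_finite] at h
    exact hN (Subgroup.finiteIndex_of_finite_quotient)
  induction s using Finset.induction_on with
  | empty =>
    refine ⟨fun _ => 1, fun S hS hne => ?_⟩
    exact absurd (Finset.subset_empty.1 hS) hne.ne_empty
  | insert a s ha ih =>
    obtain ⟨y, hy⟩ := ih
    obtain ⟨z, hz⟩ := Infinite.exists_notMem_finset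
      (s.powerset.image (fun S => ((∏ i ∈ S, y i)⁻¹ : K) : Finset ι → K ⧸ N))
    obtain ⟨z, rfl⟩ := QuotientGroup.mk_surjective z
    refine ⟨Function.update y a z, fun S hS hne hmem => ?_⟩
    by_cases haS : a ∈ S
    · have h1 : S = insert a (S.erase a) := (Finset.insert_erase haS).symm
      rw [h1, Finset.prod_insert (Finset.notMem_erase a S), Function.update_self] at hmem
      have h2 : ∏ i ∈ S.erase a, Function.update y a z i = ∏ i ∈ S.erase a, y i :=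
        Finset.prod_congr rfl fun i hi => Function.update_of_ne (Finset.ne_of_mem_erase hi) _ _
      rw [h2] at hmem
      apply hz
      rw [Finset.mem_image]
      refine ⟨S.erase a, ?_, ?_⟩
      · rw [Finset.mem_powerset]
        intro i hi
        rcases Finset.mem_insert.1 (hS (Finset.mem_of_mem_erase hi)) with h | h
        · exact absurd h (Finset.ne_of_mem_erase hi)
        · exact h
      · rw [QuotientGroup.eq, inv_inv, mul_comm]
        exact hmem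
    · have h1 : S ⊆ s := by
        intro i hi
        rcases Finset.mem_insert.1 (hS hi) with h | h
        · exact absurd (h ▸ hi) haS
        · exact h
      have h2 : ∏ i ∈ S, Function.update y a z i = ∏ i ∈ S, y i :=
        Finset.prod_congr rfl fun i hi =>
          Function.update_of_ne (by rintro rfl; exact haS hi) _ _
      rw [h2] at hmem
      exact hy S h1 hne hmem

/-- Hales-Jewett for a finite set of endomorphisms of an abelian group. -/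
private theorem exists_mono {K : Type u} [CommGroup K] (N : Subgroup K) (hN : ¬ N.FiniteIndex)
    {α : Type v} [Finite α] (φ : α → (K →* K)) {F : Type w} [Finite F] (χ : K → F) :
    ∃ e : K, e ∉ N ∧ ∃ (c : K) (f : F), χ c = f ∧ ∀ a, χ (c * φ a e) = f := by
  classical
  obtain ⟨ι, hι, hHJ⟩ := Combinatorics.Line.exists_mono_in_high_dimension (Option α) F
  obtain ⟨y, hy⟩ := exists_indep N hN (Finset.univ : Finset ι)
  let ev : Option α → (K →* K) := fun x => x.elim 1 φ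
  let W : (ι → Option α) → K := fun w => ∏ i, ev (w i) (y i)
  obtain ⟨l, f, hl⟩ := hHJ (fun w => χ (W w))
  let S : Finset ι := Finset.univ.filter fun i => l.idxFun i = none
  have hS : S.Nonempty := by
    obtain ⟨i, hi⟩ := l.proper
    exact ⟨i, by simp [S, hi]⟩
  have key : ∀ x : Option α, W (l x) = W (l none) * ev x (∏ i ∈ S, y i) := by
    intro x
    have h1 : ev x (∏ i ∈ S, y i) = ∏ i, (if l.idxFun i = none then ev x (y i) else 1) := by
      rw [map_prod, Finset.prod_filter]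
    rw [h1, ← Finset.prod_mul_distrib]
    refine Finset.prod_congr rfl fun i _ => ?_
    rcases h : l.idxFun i with _ | z
    · rw [if_pos rfl, Combinatorics.Line.apply_none _ _ _ h, Combinatorics.Line.apply_none _ _ _ h]
      simp [ev]
    · rw [if_neg (by simp), Combinatorics.Line.apply_some h, Combinatorics.Line.apply_some h,
        mul_one]
  refine ⟨∏ i ∈ S, y i, hy S (Finset.subset_univ _) hS, W (l none), f, hl none, fun a => ?_⟩
  have h2 : χ (W (l (some a))) = f := hl (some a)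
  rw [key (some a)] at h2
  exact h2

/-- Module A3. -/
theorem comb {G : Type u} [Group G] {A₀ B C N : Subgroup G} {κ : Type} [Finite κ] (lab : G → κ)
    (hlab : ∀ g g', lab g = lab g' → ∃ a ∈ A₀, ∃ c ∈ C, g' = a * g * c)
    (hA : ∀ x ∈ A₀, ∀ y ∈ A₀, x * y = y * x) (hC : ∀ x ∈ C, ∀ y ∈ C, x * y = y * x)
    (hCB : C ≤ B) (hn : ∀ b ∈ B, ∀ c ∈ C, b * c * b⁻¹ ∈ C)
    (hfin : (C.subgroupOf B).FiniteIndex)
    (hN : ¬ (N.subgroupOf C).FiniteIndex) {LL : Set (Ultrafilter G)} (hLL : MinU LL) :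
    ∃ e ∈ C, e ∉ N ∧ ∃ T : Set G, (∃ q ∈ LL, T ∈ q) ∧
      ∀ g h₁ h₂ h₃ h₄ : G, h₁⁻¹ * g ∈ T → h₂⁻¹ * g ∈ T → h₃⁻¹ * g ∈ T → h₄⁻¹ * g ∈ T →
        ∀ b ∈ B, ∀ b' ∈ B,
          Commute (cj e b h₁ * (cj e b h₂)⁻¹) (cj e b' h₃ * (cj e b' h₄)⁻¹) := by
  classical
  obtain ⟨p, hp⟩ := hLL.nonempty
  obtain ⟨l, hl⟩ := exists_fiber p (fun g => lab (g⁻¹ * 1))
  -- the finite set of returns
  let U : G → Set (Ultrafilter G) := fun h => {r | {g | lab (g⁻¹ * h) = l} ∈ r}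
  have hUo : ∀ h, IsOpen (U h) := fun h => ultrafilter_isOpen_basic _
  have hcov : LL ⊆ ⋃ h, U h := by
    by_contra hne
    rw [Set.not_subset] at hne
    obtain ⟨r, hr, hr'⟩ := hne
    let K : Set (Ultrafilter G) := LL ∩ (⋃ h, U h)ᶜ
    have hK : K = LL := by
      refine hLL.min K Set.inter_subset_left ⟨r, hr, hr'⟩
        (hLL.closed.inter (isOpen_iUnion hUo).isClosed_compl) ?_
      rintro g s ⟨hs, hs'⟩
      refine ⟨hLL.inv g s hs, fun hmem => hs' ?_⟩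
      rw [Set.mem_iUnion] at hmem ⊢
      obtain ⟨h, hh⟩ := hmem
      refine ⟨g⁻¹ * h, ?_⟩
      have hh2 : {x | lab ((g * x)⁻¹ * h) = l} ∈ s := hh
      have h3 : {x | lab ((g * x)⁻¹ * h) = l} = {x | lab (x⁻¹ * (g⁻¹ * h)) = l} := by
        ext x
        simp only [Set.mem_ofPred_eq, mul_inv_rev, mul_assoc]
      rw [h3] at hh2
      exact hh2
    have hp' : p ∈ K := by rw [hK]; exact hp
    exact hp'.2 (Set.mem_iUnion.2 ⟨1, hl⟩)
  obtain ⟨F, hF⟩ := (hLL.closed.isCompact).elim_finite_subcover U hUo hcov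
  have hret : ∀ k : G, ∃ h ∈ F, {g | lab (g⁻¹ * (k⁻¹ * h)) = l} ∈ p := by
    intro k
    have h1 := hF (hLL.inv k p hp)
    simp only [Set.mem_iUnion] at h1
    obtain ⟨h, hh, h2⟩ := h1
    refine ⟨h, hh, ?_⟩
    have hh2 : {x | lab ((k * x)⁻¹ * h) = l} ∈ p := h2
    have h3 : {x | lab ((k * x)⁻¹ * h) = l} = {x | lab (x⁻¹ * (k⁻¹ * h)) = l} := by
      ext x
      simp only [Set.mem_ofPred_eq, mul_inv_rev, mul_assoc]
    rwa [h3] at hh2
  -- the colouring of `C`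
  have hχ : ∀ c : C, ∃ h : F, {k : G | {g | lab (g⁻¹ * ((c : G)⁻¹ * k⁻¹ * h)) = l} ∈ p} ∈ p := by
    intro c
    choose f hf hf2 using fun k : G => hret (k * c)
    obtain ⟨h, hh⟩ := exists_fiber p (fun k => (⟨f k, hf k⟩ : F))
    refine ⟨h, Filter.mem_of_superset hh fun k hk => ?_⟩
    have hk' : (⟨f k, hf k⟩ : F) = h := hk
    have h4 := hf2 k
    rw [← hk']
    rw [mul_inv_rev] at h4
    exact h4
  choose χ hχ using hχ
  let : CommGroup C :=
    { (inferInstance : Group C) with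
      mul_comm := fun a b => Subtype.ext (hC _ a.2 _ b.2) }
  let α := B ⧸ C.subgroupOf B
  have : Finite α := Subgroup.finite_quotient_of_finiteIndex
  -- conjugation by representatives
  let φ : α → (C →* C) := fun t =>
    { toFun := fun c => ⟨(t.out : G) * c * (t.out : G)⁻¹, hn _ t.out.2 _ c.2⟩
      map_one' := by apply Subtype.ext; simp
      map_mul' := fun c c' => by apply Subtype.ext; simp [mul_assoc] }
  have hφ : ∀ b ∈ B, ∃ t : α, ∀ c : C, (φ t c : G) = b * c * b⁻¹ := by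
    intro b hb
    refine ⟨QuotientGroup.mk ⟨b, hb⟩, fun c => ?_⟩
    have h1 : ((⟨b, hb⟩ : B)⁻¹ * (QuotientGroup.mk ⟨b, hb⟩ : α).out) ∈ C.subgroupOf B := by
      rw [← QuotientGroup.eq]
      exact (Quotient.out_eq' _).symm
    rw [Subgroup.mem_subgroupOf] at h1
    have h2 : ((QuotientGroup.mk ⟨b, hb⟩ : α).out : G)
        = b * (((⟨b, hb⟩ : B)⁻¹ * (QuotientGroup.mk ⟨b, hb⟩ : α).out : B) : G) := by
      simp
    set c' : G := (((⟨b, hb⟩ : B)⁻¹ * (QuotientGroup.mk ⟨b, hb⟩ : α).out : B) : G) with hc'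
    show ((QuotientGroup.mk ⟨b, hb⟩ : α).out : G) * c * ((QuotientGroup.mk ⟨b, hb⟩ : α).out : G)⁻¹
      = b * c * b⁻¹
    rw [h2, mul_inv_rev]
    have h3 : c' * (c : G) = c * c' := hC _ h1 _ c.2
    calc b * c' * c * (c'⁻¹ * b⁻¹) = b * (c' * c) * c'⁻¹ * b⁻¹ := by group
      _ = b * (c * c') * c'⁻¹ * b⁻¹ := by rw [h3]
      _ = _ := by group
  obtain ⟨e, heN, c0, h0, hc0, hc⟩ := exists_mono (N.subgroupOf C) hN φ χ
  let T : Set G := {k | ({g | lab (g⁻¹ * ((c0 : G)⁻¹ * k⁻¹)) = l} ∈ p) ∧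
    ∀ t : α, {g | lab (g⁻¹ * (((c0 * φ t e : C) : G)⁻¹ * k⁻¹)) = l} ∈ p}
  refine ⟨e, e.2, fun h => heN (Subgroup.mem_subgroupOf.2 h), T,
    ⟨tr (h0 : G)⁻¹ p, hLL.inv _ _ hp, ?_⟩, ?_⟩
  · show {x : G | (h0 : G)⁻¹ * x ∈ T} ∈ p
    have e1 : {x : G | (h0 : G)⁻¹ * x ∈ T} =
        {k : G | {g | lab (g⁻¹ * ((c0 : G)⁻¹ * k⁻¹ * h0)) = l} ∈ p} ∩
        ⋂ t : α, {k : G | {g | lab (g⁻¹ * (((c0 * φ t e : C) : G)⁻¹ * k⁻¹ * h0)) = l} ∈ p} := by
      ext k
      simp only [T, Set.mem_ofPred_eq, Set.mem_inter_iff, Set.mem_iInter, mul_inv_rev, inv_inv,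
        mul_assoc]
    rw [e1]
    refine Filter.inter_mem ?_ ?_
    · have := hχ c0
      rwa [hc0] at this
    · rw [Filter.iInter_mem]
      intro t
      have := hχ (c0 * φ t e)
      rwa [hc t] at this
  · intro g h₁ h₂ h₃ h₄ H₁ H₂ H₃ H₄ b hb b' hb'
    obtain ⟨t, ht⟩ := hφ b hb
    obtain ⟨t', ht'⟩ := hφ b' hb'
    -- a common point
    have hmem : ∀ h : G, h⁻¹ * g ∈ T →
        {s | lab (s⁻¹ * ((c0 : G)⁻¹ * g⁻¹ * h)) = l ∧
          lab (s⁻¹ * (((c0 * φ t e : C) : G)⁻¹ * g⁻¹ * h)) = l ∧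
          lab (s⁻¹ * (((c0 * φ t' e : C) : G)⁻¹ * g⁻¹ * h)) = l} ∈ p := by
      rintro h ⟨k1, k2⟩
      filter_upwards [k1, k2 t, k2 t'] with s s1 s2 s3
      simp only [mul_inv_rev, inv_inv, mul_assoc] at s1 s2 s3 ⊢
      exact ⟨s1, s2, s3⟩
    obtain ⟨s, ⟨⟨⟨⟨s0, s1⟩, s2⟩, s3⟩, s4⟩⟩ := p.nonempty_of_mem
      (Filter.inter_mem (Filter.inter_mem (Filter.inter_mem (Filter.inter_mem hl (hmem h₁ H₁))
        (hmem h₂ H₂)) (hmem h₃ H₃)) (hmem h₄ H₄))
    rw [Set.mem_ofPred_eq, mul_one] at s0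
    let A' : Subgroup G := A₀.map (MulAut.conj s).toMonoidHom
    have hA'mem : ∀ a ∈ A₀, s * a * s⁻¹ ∈ A' := fun a ha => ⟨a, ha, rfl⟩
    have hA' : ∀ x ∈ A', ∀ y ∈ A', x * y = y * x := by
      rintro _ ⟨x, hx, rfl⟩ _ ⟨y, hy, rfl⟩
      rw [← map_mul, ← map_mul, hA x hx y hy]
    -- the decomposition
    have dec : ∀ h : G, lab (s⁻¹ * ((c0 : G)⁻¹ * g⁻¹ * h)) = l ∧
          lab (s⁻¹ * (((c0 * φ t e : C) : G)⁻¹ * g⁻¹ * h)) = l ∧
          lab (s⁻¹ * (((c0 * φ t' e : C) : G)⁻¹ * g⁻¹ * h)) = l →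
        ∃ a ∈ A', ∃ c ∈ C, h = g * c0 * a * c ∧
          (∃ a1 ∈ A', ∃ c1 ∈ C, (φ t e : G)⁻¹ * a = a1 * c1) ∧
          (∃ a1 ∈ A', ∃ c1 ∈ C, (φ t' e : G)⁻¹ * a = a1 * c1) := by
      rintro h ⟨k1, k2, k3⟩
      obtain ⟨a, ha, c, hc', e1⟩ := hlab _ _ (s0.trans k1.symm)
      obtain ⟨a2, ha2, c2, hc2, e2⟩ := hlab _ _ (s0.trans k2.symm)
      obtain ⟨a3, ha3, c3, hc3, e3⟩ := hlab _ _ (s0.trans k3.symm)
      refine ⟨s * a * s⁻¹, hA'mem a ha, c, hc', ?_, ⟨s * a2 * s⁻¹, hA'mem a2 ha2, c2 * c⁻¹,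
        mul_mem hc2 (inv_mem hc'), ?_⟩, ⟨s * a3 * s⁻¹, hA'mem a3 ha3, c3 * c⁻¹,
        mul_mem hc3 (inv_mem hc'), ?_⟩⟩
      · have : h = g * c0 * s * (s⁻¹ * ((c0 : G)⁻¹ * g⁻¹ * h)) := by group
        rw [this, e1]; group
      · have h5 : (φ t e : G)⁻¹ * (s * a * s⁻¹)
            = s * (s⁻¹ * (((c0 * φ t e : C) : G)⁻¹ * g⁻¹ * h)) *
              (s⁻¹ * ((c0 : G)⁻¹ * g⁻¹ * h))⁻¹ * (a * s⁻¹ * c) * c⁻¹ := by
          rw [Subgroup.coe_mul, mul_inv_rev]; group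
        rw [h5, e2, e1]; group
      · have h5 : (φ t' e : G)⁻¹ * (s * a * s⁻¹)
            = s * (s⁻¹ * (((c0 * φ t' e : C) : G)⁻¹ * g⁻¹ * h)) *
              (s⁻¹ * ((c0 : G)⁻¹ * g⁻¹ * h))⁻¹ * (a * s⁻¹ * c) * c⁻¹ := by
          rw [Subgroup.coe_mul, mul_inv_rev]; group
        rw [h5, e3, e1]; group
    obtain ⟨a1, ha1, c1, hc1, e1, x1, y1⟩ := dec h₁ s1
    obtain ⟨a2, ha2, c2, hc2, e2, x2, y2⟩ := dec h₂ s2
    obtain ⟨a3, ha3, c3, hc3, e3, x3, y3⟩ := dec h₃ s3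
    obtain ⟨a4, ha4, c4, hc4, e4, x4, y4⟩ := dec h₄ s4
    set d : G := (φ t e : G) with hd
    set d' : G := (φ t' e : G) with hd'
    have hdC : d ∈ C := (φ t e).2
    have hd'C : d' ∈ C := (φ t' e).2
    have ito : ∀ a ∈ A', ∀ a' ∈ A', (∃ a1 ∈ A', ∃ c1 ∈ C, d'⁻¹ * a = a1 * c1) →
        (∃ a1 ∈ A', ∃ c1 ∈ C, d⁻¹ * a' = a1 * c1) →
        Commute (a * d * a⁻¹ * d⁻¹) (a' * d' * a'⁻¹ * d'⁻¹) := fun a ha a' ha' k1 k2 =>
      Pool.Agent.AO.ito hA' hC hdC hd'C ha ha' k2 k1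
    have i13 := ito a1 ha1 a3 ha3 y1 x3
    have i14 := ito a1 ha1 a4 ha4 y1 x4
    have i23 := ito a2 ha2 a3 ha3 y2 x3
    have i24 := ito a2 ha2 a4 ha4 y2 x4
    have cjd : ∀ h a c : G, c ∈ C → h = g * c0 * a * c →
        cj (e : G) b h = (g * c0) * (a * d * a⁻¹ * d⁻¹) * d * (g * c0)⁻¹ := by
      intro h a c hcC hh
      have h6 : c * d = d * c := hC _ hcC _ hdC
      have h7 : b * (e : G) * b⁻¹ = d := (ht e).symm
      rw [cj, h7, hh]
      calc g * c0 * a * c * d * (g * c0 * a * c)⁻¹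
          = g * c0 * a * (c * d) * c⁻¹ * a⁻¹ * (g * c0)⁻¹ := by group
        _ = g * c0 * a * (d * c) * c⁻¹ * a⁻¹ * (g * c0)⁻¹ := by rw [h6]
        _ = _ := by group
    have cjd' : ∀ h a c : G, c ∈ C → h = g * c0 * a * c →
        cj (e : G) b' h = (g * c0) * (a * d' * a⁻¹ * d'⁻¹) * d' * (g * c0)⁻¹ := by
      intro h a c hcC hh
      have h6 : c * d' = d' * c := hC _ hcC _ hd'C
      have h7 : b' * (e : G) * b'⁻¹ = d' := (ht' e).symm
      rw [cj, h7, hh]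
      calc g * c0 * a * c * d' * (g * c0 * a * c)⁻¹
          = g * c0 * a * (c * d') * c⁻¹ * a⁻¹ * (g * c0)⁻¹ := by group
        _ = g * c0 * a * (d' * c) * c⁻¹ * a⁻¹ * (g * c0)⁻¹ := by rw [h6]
        _ = _ := by group
    have q1 : cj (e : G) b h₁ * (cj (e : G) b h₂)⁻¹
        = (MulAut.conj (g * c0)) ((a1 * d * a1⁻¹ * d⁻¹) * (a2 * d * a2⁻¹ * d⁻¹)⁻¹) := by
      rw [cjd h₁ a1 c1 hc1 e1, cjd h₂ a2 c2 hc2 e2, MulAut.conj_apply]
      group
    have q2 : cj (e : G) b' h₃ * (cj (e : G) b' h₄)⁻¹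
        = (MulAut.conj (g * c0)) ((a3 * d' * a3⁻¹ * d'⁻¹) * (a4 * d' * a4⁻¹ * d'⁻¹)⁻¹) := by
      rw [cjd' h₃ a3 c3 hc3 e3, cjd' h₄ a4 c4 hc4 e4, MulAut.conj_apply]
      group
    rw [q1, q2]
    refine Commute.map ?_ (MulAut.conj (g * c0))
    exact ((i13.mul_right i14.inv_right).mul_left (i23.mul_right i24.inv_right).inv_left)

end Pool.Agent.AQA
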