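import Mathlib

/-!
# MP_00fcbb, PART A: definitions

`G` acts on `I → ℝ` by `(g x)_i = x_(g⁻¹ i)`.
-/

set_option autoImplicit false

universe u v

namespace Pool.Agent.AQA

open Set Filter Topology

section act

variable {G : Type u} [Group G] {I : Type v} [MulAction G I]

/-- the action of `G` on `I → ℝ`: `(g x)_i = x_(g⁻¹ i)` -/
def act (g : G) (x : I → ℝ) : I → ℝ := fun i => x (g⁻¹ • i)

@[simp] theorem act_apply (g : G) (x : I → ℝ) (i : I) : act g x i = x (g⁻¹ • i) := rfl

@[simp] theorem act_one (x : I → ℝ) : act (1 : G) x = x := by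
  funext i; simp [act]

theorem act_mul (g h : G) (x : I → ℝ) : act (g * h) x = act g (act h x) := by
  funext i; simp [act, mul_smul]

theorem act_add (g : G) (x y : I → ℝ) : act g (x + y) = act g x + act g y := rfl

theorem act_smul (g : G) (c : ℝ) (x : I → ℝ) : act g (c • x) = c • act g x := rfl

theorem continuous_act (g : G) : Continuous (act g : (I → ℝ) → (I → ℝ)) :=
  continuous_pi fun i => continuous_apply (g⁻¹ • i)

/-- `Q` is a compact convex subset of `I → ℝ` which is invariant under `G`. -/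
structure CCI (G : Type u) [Group G] {I : Type v} [MulAction G I] (Q : Set (I → ℝ)) : Prop where
  compact : IsCompact Q
  convex : Convex ℝ Q
  inv : ∀ g : G, ∀ x ∈ Q, act g x ∈ Q

/-- `Q` is an irreducible compact convex invariant subset of `I → ℝ`. -/
structure Irred (G : Type u) [Group G] {I : Type v} [MulAction G I] (Q : Set (I → ℝ)) : Prop
    extends CCI G Q where
  nonempty : Q.Nonempty
  irred : ∀ Q' : Set (I → ℝ), Q' ⊆ Q → Q'.Nonempty → IsClosed Q' → Convex ℝ Q' →
    (∀ g : G, ∀ x ∈ Q', act g x ∈ Q') → Q' = Q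

end act

section ultra

variable {G : Type u} [Group G]

/-- the translate `g r` of an ultrafilter -/
def tr (g : G) (r : Ultrafilter G) : Ultrafilter G := r.map (fun x => g * x)

theorem mem_tr {g : G} {r : Ultrafilter G} {S : Set G} :
    S ∈ tr g r ↔ {x | g * x ∈ S} ∈ r := Iff.rfl

theorem tr_one (r : Ultrafilter G) : tr 1 r = r := by
  ext S; simp [mem_tr]

theorem tr_mul (g h : G) (r : Ultrafilter G) : tr (g * h) r = tr g (tr h r) := by
  ext S; simp [mem_tr, mul_assoc]

theorem continuous_tr (g : G) : Continuous (tr g : Ultrafilter G → Ultrafilter G) := by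
  rw [ultrafilterBasis_is_basis.continuous_iff]
  rintro _ ⟨S, rfl⟩
  exact ultrafilter_isOpen_basic {x | g * x ∈ S}

/-- minimal closed (left) invariant sets of ultrafilters -/
structure MinU (LL : Set (Ultrafilter G)) : Prop where
  closed : IsClosed LL
  nonempty : LL.Nonempty
  inv : ∀ g : G, ∀ r ∈ LL, tr g r ∈ LL
  min : ∀ K : Set (Ultrafilter G), K ⊆ LL → K.Nonempty → IsClosed K →
    (∀ g : G, ∀ r ∈ K, tr g r ∈ K) → K = LL

end ultra

/-- `h e^b h⁻¹`, where `e^b = b e b⁻¹` -/
def cj {G : Type u} [Group G] (e b h : G) : G := h * (b * e * b⁻¹) * h⁻¹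

end Pool.Agent.AQA
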