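import Pool.Agent.AQA.Defs

/-!
# MP_00fcbb, PART A: minimal sets (Zorn), irreducible compact convex sets, and the map `π`
-/

set_option autoImplicit false

universe u v

namespace Pool.Agent.AQA

open Set Filter Topology

/-- minimal nonempty closed subsets with a property that is stable under intersections of chains -/
theorem exists_min {X : Type u} [TopologicalSpace X] {K : Set X} (hKc : IsCompact K)
    (hKcl : IsClosed K) (hKn : K.Nonempty) (P : Set X → Prop) (hPK : P K)
    (hP : ∀ c : Set (Set X), c.Nonempty → IsChain (· ⊆ ·) c → (∀ s ∈ c, P s) → P (⋂₀ c)) :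
    ∃ M ⊆ K, M.Nonempty ∧ IsClosed M ∧ P M ∧
      ∀ M' ⊆ M, M'.Nonempty → IsClosed M' → P M' → M' = M := by
  let S : Set (Set X) := {M | M ⊆ K ∧ M.Nonempty ∧ IsClosed M ∧ P M}
  have hKS : K ∈ S := ⟨subset_rfl, hKn, hKcl, hPK⟩
  obtain ⟨M, -, hM⟩ := zorn_superset_nonempty S (by
    intro c hcS hc hcn
    refine ⟨⋂₀ c, ⟨?_, ?_, ?_, ?_⟩, fun s hs => sInter_subset_of_mem hs⟩
    · obtain ⟨s, hs⟩ := hcn
      exact (sInter_subset_of_mem hs).trans (hcS hs).1
    · have : Nonempty c := hcn.to_subtype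
      have hc' : IsChain (· ⊇ ·) c := hc.symm
      refine IsCompact.nonempty_sInter_of_directed_nonempty_isCompact_isClosed
        hc'.directedOn (fun s hs => (hcS hs).2.1) (fun s hs => ?_)
        (fun s hs => (hcS hs).2.2.1)
      exact hKc.of_isClosed_subset (hcS hs).2.2.1 (hcS hs).1
    · exact isClosed_sInter fun s hs => (hcS hs).2.2.1
    · exact hP c hcn hc fun s hs => (hcS hs).2.2.2) K hKS
  refine ⟨M, hM.prop.1, hM.prop.2.1, hM.prop.2.2.1, hM.prop.2.2.2, fun M' h1 h2 h3 h4 => ?_⟩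
  exact h1.antisymm (hM.le_of_le ⟨h1.trans hM.prop.1, h2, h3, h4⟩ h1)

variable {G : Type u} [Group G]

theorem exists_minU : ∃ LL : Set (Ultrafilter G), MinU LL := by
  obtain ⟨M, -, h1, h2, h3, h4⟩ := exists_min (X := Ultrafilter G) isCompact_univ isClosed_univ
    ⟨pure 1, trivial⟩ (fun K => ∀ g : G, ∀ r ∈ K, tr g r ∈ K) (fun _ _ _ => trivial)
    (fun c _ _ hc g r hr s hs => hc s hs g r (hr s hs))
  exact ⟨M, h2, h1, h3, fun K a b c d => h4 K a b c d⟩

variable {I : Type v} [MulAction G I]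

theorem exists_irred {Q₀ : Set (I → ℝ)} (hQ₀ : CCI G Q₀) (hn : Q₀.Nonempty) :
    ∃ Q ⊆ Q₀, Irred G Q := by
  obtain ⟨M, h0, h1, h2, h3, h4⟩ := exists_min hQ₀.compact hQ₀.compact.isClosed hn
    (fun K => Convex ℝ K ∧ ∀ g : G, ∀ x ∈ K, act g x ∈ K) ⟨hQ₀.convex, hQ₀.inv⟩
    (fun c _ _ hc => ⟨convex_sInter fun s hs => (hc s hs).1,
      fun g r hr s hs => (hc s hs).2 g r (hr s hs)⟩)
  exact ⟨M, h0, ⟨⟨hQ₀.compact.of_isClosed_subset h2 h0, h3.1, h3.2⟩, h1,
    fun K a b c d e => h4 K a b c ⟨d, e⟩⟩⟩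

/-- the closed convex hull of a nonempty invariant subset of an irreducible set is everything -/
theorem Irred.closure_convexHull {Q : Set (I → ℝ)} (hQ : Irred G Q) {P : Set (I → ℝ)} (hP : P ⊆ Q)
    (hn : P.Nonempty) (hi : ∀ g : G, ∀ x ∈ P, act g x ∈ P) :
    closure (convexHull ℝ P) = Q := by
  apply hQ.irred
  · exact closure_minimal (convexHull_min hP hQ.convex) hQ.compact.isClosed
  · exact (hn.mono (subset_convexHull ℝ P)).mono subset_closure
  · exact isClosed_closure
  · exact (convex_convexHull ℝ P).closure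
  · intro g x hx
    have h1 : MapsTo (act g) (convexHull ℝ P) (convexHull ℝ P) := by
      have hc : Convex ℝ {y : I → ℝ | act g y ∈ convexHull ℝ P} := by
        intro y hy z hz a b ha hb hab
        show act g (a • y + b • z) ∈ convexHull ℝ P
        rw [act_add, act_smul, act_smul]
        exact convex_convexHull ℝ P hy hz ha hb hab
      exact convexHull_min (fun y hy => subset_convexHull ℝ P (hi g y hy)) hc
    exact map_mem_closure (continuous_act g) hx h1

/-- The limit map `π : βG → Q`, `π(r) = lim_{g → r} g q₀`. -/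
theorem exists_pi {Q : Set (I → ℝ)} (hQ : CCI G Q) (hn : Q.Nonempty) :
    ∃ π : Ultrafilter G → (I → ℝ), Continuous π ∧ (∀ r, π r ∈ Q) ∧
      ∀ (g : G) (r : Ultrafilter G), π (tr g r) = act g (π r) := by
  obtain ⟨q₀, hq₀⟩ := hn
  have : CompactSpace Q := isCompact_iff_compactSpace.1 hQ.compact
  let f : G → Q := fun g => ⟨act g q₀, hQ.inv g q₀ hq₀⟩
  let F : Ultrafilter G → Q := Ultrafilter.extend f
  have hF : Continuous F := continuous_ultrafilter_extend f
  have hFp : ∀ g : G, F (pure g) = f g := fun g => congrFun (ultrafilter_extend_extends f) g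
  refine ⟨fun r => (F r : I → ℝ), continuous_subtype_val.comp hF, fun r => (F r).2, ?_⟩
  intro g r
  have h1 : Continuous fun r : Ultrafilter G => (F (tr g r) : I → ℝ) :=
    continuous_subtype_val.comp (hF.comp (continuous_tr g))
  have h2 : Continuous fun r : Ultrafilter G => act g (F r : I → ℝ) :=
    (continuous_act g).comp (continuous_subtype_val.comp hF)
  have h3 : (fun r : Ultrafilter G => (F (tr g r) : I → ℝ)) = fun r => act g (F r : I → ℝ) := by
    refine denseRange_pure.equalizer h1 h2 ?_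
    funext x
    show (F (tr g (pure x)) : I → ℝ) = act g (F (pure x) : I → ℝ)
    have : tr g (pure x : Ultrafilter G) = pure (g * x) := Ultrafilter.map_pure _ _
    rw [this, hFp, hFp]
    exact act_mul g x q₀
  exact congrFun h3 r

end Pool.Agent.AQA
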