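import Pool.Agent.AQA.Principle
import Pool.Agent.AQA.Flow
import Pool.Agent.helper48.MK

/-!
# MP_00fcbb, PART A: the steps A4 and A5
-/

set_option autoImplicit false

universe u v

namespace Pool.Agent.AQA

open Set Filter Topology

variable {G : Type u} [Group G] {I : Type v} [MulAction G I]

/-- `K(r) = {h | hT ∈ r}` -/
def KK (T : Set G) (r : Ultrafilter G) : Set G := {h | {g | h⁻¹ * g ∈ T} ∈ r}

theorem mem_KK_tr {T : Set G} {r : Ultrafilter G} {g h : G} :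
    h ∈ KK T (tr g r) ↔ g⁻¹ * h ∈ KK T r := by
  show {x | h⁻¹ * (g * x) ∈ T} ∈ r ↔ {x | (g⁻¹ * h)⁻¹ * x ∈ T} ∈ r
  have : {x | h⁻¹ * (g * x) ∈ T} = {x | (g⁻¹ * h)⁻¹ * x ∈ T} := by
    ext x
    simp only [mem_ofPred_eq]
    rw [mul_inv_rev, inv_inv, mul_assoc]
  rw [this]

theorem isOpen_KK (T : Set G) (h : G) : IsOpen {r : Ultrafilter G | h ∈ KK T r} :=
  ultrafilter_isOpen_basic _

theorem isClosed_KK (T : Set G) (h : G) : IsClosed {r : Ultrafilter G | h ∈ KK T r} :=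
  ultrafilter_isClosed_basic _

theorem cj_mul (e b g h : G) : cj e b (g * h) = g * cj e b h * g⁻¹ := by
  unfold cj; group

/-- the commutation hypothesis (T1) -/
def TComm (B : Subgroup G) (e : G) (T : Set G) : Prop :=
  ∀ g h₁ h₂ h₃ h₄ : G, h₁⁻¹ * g ∈ T → h₂⁻¹ * g ∈ T → h₃⁻¹ * g ∈ T → h₄⁻¹ * g ∈ T →
    ∀ b ∈ B, ∀ b' ∈ B, Commute (cj e b h₁ * (cj e b h₂)⁻¹) (cj e b' h₃ * (cj e b' h₄)⁻¹)

/-- A4, first application of the principle. -/
theorem step_one {Q : Set (I → ℝ)} (hQ : Irred G Q) {LL : Set (Ultrafilter G)} (hLL : MinU LL)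
    {π : Ultrafilter G → (I → ℝ)} (hπc : Continuous π) (hπQ : ∀ r, π r ∈ Q)
    (hπe : ∀ (g : G) (r : Ultrafilter G), π (tr g r) = act g (π r))
    {B : Subgroup G} {e : G} {T : Set G} (hT : TComm B e T) :
    ∀ r ∈ LL, ∀ h ∈ KK T r, ∀ h' ∈ KK T r, ∀ b ∈ B,
      act (cj e b h * (cj e b h')⁻¹) (π r) = π r := by
  let SS : Set (Ultrafilter G × (I → ℝ)) := {p | p.1 ∈ LL ∧ p.2 ∈ Q ∧
    ∀ h h' : G, h ∈ KK T p.1 → h' ∈ KK T p.1 → ∀ b ∈ B, act (cj e b h * (cj e b h')⁻¹) p.2 = p.2}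
  have hSc : IsClosed SS := by
    have : SS = (Prod.fst ⁻¹' LL) ∩ ((Prod.snd ⁻¹' Q) ∩ ⋂ h : G, ⋂ h' : G, ⋂ b : G, ⋂ _ : b ∈ B,
        ({p : Ultrafilter G × (I → ℝ) | h ∉ KK T p.1} ∪ ({p | h' ∉ KK T p.1} ∪
          {p | act (cj e b h * (cj e b h')⁻¹) p.2 = p.2}))) := by
      ext p
      simp only [SS, mem_ofPred_eq, mem_inter_iff, mem_preimage, mem_iInter, mem_union]
      constructor
      · rintro ⟨h1, h2, h3⟩
        refine ⟨h1, h2, fun h h' b hb => ?_⟩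
        by_cases a1 : h ∈ KK T p.1
        · by_cases a2 : h' ∈ KK T p.1
          · exact Or.inr (Or.inr (h3 h h' a1 a2 b hb))
          · exact Or.inr (Or.inl a2)
        · exact Or.inl a1
      · rintro ⟨h1, h2, h3⟩
        refine ⟨h1, h2, fun h h' a1 a2 b hb => ?_⟩
        rcases h3 h h' b hb with h4 | h4 | h4
        · exact absurd a1 h4
        · exact absurd a2 h4
        · exact h4
    rw [this]
    refine (hLL.closed.preimage continuous_fst).inter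
      ((hQ.compact.isClosed.preimage continuous_snd).inter ?_)
    refine isClosed_iInter fun h => isClosed_iInter fun h' => isClosed_iInter fun b =>
      isClosed_iInter fun _ => ?_
    refine IsClosed.union ?_ (IsClosed.union ?_ ?_)
    · exact (isOpen_KK T h).isClosed_compl.preimage continuous_fst
    · exact (isOpen_KK T h').isClosed_compl.preimage continuous_fst
    · exact isClosed_eq ((continuous_act _).comp continuous_snd) continuous_snd
  have hSi : ∀ g : G, ∀ p ∈ SS, (tr g p.1, act g p.2) ∈ SS := by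
    rintro g p ⟨h1, h2, h3⟩
    refine ⟨hLL.inv g _ h1, hQ.inv g _ h2, fun h h' a1 a2 b hb => ?_⟩
    rw [mem_KK_tr] at a1 a2
    have h4 := h3 _ _ a1 a2 b hb
    have e1 : cj e b h = g * cj e b (g⁻¹ * h) * g⁻¹ := by rw [← cj_mul]; congr 1; group
    have e2 : cj e b h' = g * cj e b (g⁻¹ * h') * g⁻¹ := by rw [← cj_mul]; congr 1; group
    have e3 : cj e b h * (cj e b h')⁻¹ * g = g * (cj e b (g⁻¹ * h) * (cj e b (g⁻¹ * h'))⁻¹) := by
      rw [e1, e2]; group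
    show act (cj e b h * (cj e b h')⁻¹) (act g p.2) = act g p.2
    rw [← act_mul, e3, act_mul, h4]
  have hSn : SS.Nonempty := by
    obtain ⟨r, hr⟩ := hLL.nonempty
    obtain ⟨ξ, hξ, hfix⟩ := Pool.Agent.helper48.MK.commuting_fun hQ.compact hQ.convex hQ.nonempty
      {s : G | ∃ h ∈ KK T r, ∃ h' ∈ KK T r, ∃ b ∈ B, s = cj e b h * (cj e b h')⁻¹}
      (fun s _ x hx => hQ.inv s x hx) (by
        rintro _ ⟨h₁, a1, h₂, a2, b, hb, rfl⟩ _ ⟨h₃, a3, h₄, a4, b', hb', rfl⟩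
        obtain ⟨g, hg⟩ := Ultrafilter.nonempty_of_mem
          (Filter.inter_mem (Filter.inter_mem a1 a2) (Filter.inter_mem a3 a4))
        exact hT g h₁ h₂ h₃ h₄ hg.1.1 hg.1.2 hg.2.1 hg.2.2 b hb b' hb')
    exact ⟨(r, ξ), hr, hξ, fun h h' a1 a2 b hb => hfix _ ⟨h, a1, h', a2, b, hb, rfl⟩⟩
  intro r hr h a1 h' a2 b hb
  have := principle hQ hLL hπc (fun r _ => hπQ r) (fun g r _ => hπe g r) hSc
    (fun p hp => ⟨hp.1, hp.2.1⟩) hSi hSn r hr
  exact this.2.2 h h' a1 a2 b hb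

/-- every `K(r)`, `r ∈ LL`, is nonempty, uniformly -/
theorem exists_finite {LL : Set (Ultrafilter G)} (hLL : MinU LL) {T : Set G}
    (hT : ∃ q ∈ LL, T ∈ q) : ∃ F : Finset G, ∀ r ∈ LL, ∃ h ∈ F, h ∈ KK T r := by
  have hne : ∀ r ∈ LL, ∃ h, h ∈ KK T r := by
    by_contra hcon
    push Not at hcon
    obtain ⟨r, hr, hr'⟩ := hcon
    have hK : {r ∈ LL | ∀ h : G, h ∉ KK T r} = LL := by
      apply hLL.min
      · exact fun r hr => hr.1
      · exact ⟨r, hr, hr'⟩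
      · have : {r ∈ LL | ∀ h : G, h ∉ KK T r} = LL ∩ ⋂ h : G, {r | h ∈ KK T r}ᶜ := by
          ext r; simp
        rw [this]
        exact hLL.closed.inter (isClosed_iInter fun h => (isOpen_KK T h).isClosed_compl)
      · intro g r hr
        refine ⟨hLL.inv g r hr.1, fun h => ?_⟩
        rw [mem_KK_tr]
        exact hr.2 _
    obtain ⟨q, hq, hTq⟩ := hT
    have h1 : q ∈ {r ∈ LL | ∀ h : G, h ∉ KK T r} := by rw [hK]; exact hq
    apply h1.2 1
    show {g | (1 : G)⁻¹ * g ∈ T} ∈ q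
    simpa using hTq
  obtain ⟨F, hF⟩ := hLL.closed.isCompact.elim_finite_subcover
    (fun h : G => {r : Ultrafilter G | h ∈ KK T r}) (fun h => isOpen_KK T h)
    (fun r hr => mem_iUnion.2 (hne r hr))
  refine ⟨F, fun r hr => ?_⟩
  obtain ⟨h, hh⟩ := mem_iUnion.1 (hF hr)
  obtain ⟨hhF, hh⟩ := mem_iUnion.1 hh
  exact ⟨h, hhF, hh⟩

/-- A4, second application of the principle. -/
theorem step_two {Q : Set (I → ℝ)} (hQ : Irred G Q) {LL : Set (Ultrafilter G)} (hLL : MinU LL)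
    {π : Ultrafilter G → (I → ℝ)} (hπc : Continuous π) (hπQ : ∀ r, π r ∈ Q)
    (hπe : ∀ (g : G) (r : Ultrafilter G), π (tr g r) = act g (π r))
    {B : Subgroup G} {e : G} {T : Set G} (hT : TComm B e T) (hT' : ∃ q ∈ LL, T ∈ q) :
    ∀ r ∈ LL, ∀ h ∈ KK T r, ∀ b ∈ B, act (cj e b h) (π r) = π r := by
  have h1 := step_one hQ hLL hπc hπQ hπe hT
  intro r₀ hr₀ h₀ hh₀ b hb
  let SS : Set (Ultrafilter G × (I → ℝ)) := {p | p.1 ∈ LL ∧ p.2 ∈ Q ∧
    ∀ h : G, h ∈ KK T p.1 → act (cj e b h) p.2 = π p.1}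
  have hSc : IsClosed SS := by
    have : SS = (Prod.fst ⁻¹' LL) ∩ ((Prod.snd ⁻¹' Q) ∩ ⋂ h : G,
        ({p : Ultrafilter G × (I → ℝ) | h ∉ KK T p.1} ∪ {p | act (cj e b h) p.2 = π p.1})) := by
      ext p
      simp only [SS, mem_ofPred_eq, mem_inter_iff, mem_preimage, mem_iInter, mem_union]
      constructor
      · rintro ⟨h1, h2, h3⟩
        refine ⟨h1, h2, fun h => ?_⟩
        by_cases a1 : h ∈ KK T p.1
        · exact Or.inr (h3 h a1)
        · exact Or.inl a1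
      · rintro ⟨h1, h2, h3⟩
        refine ⟨h1, h2, fun h a1 => ?_⟩
        rcases h3 h with h4 | h4
        · exact absurd a1 h4
        · exact h4
    rw [this]
    refine (hLL.closed.preimage continuous_fst).inter
      ((hQ.compact.isClosed.preimage continuous_snd).inter ?_)
    refine isClosed_iInter fun h => ?_
    refine IsClosed.union ?_ ?_
    · exact (isOpen_KK T h).isClosed_compl.preimage continuous_fst
    · exact isClosed_eq ((continuous_act _).comp continuous_snd) (hπc.comp continuous_fst)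
  have hSi : ∀ g : G, ∀ p ∈ SS, (tr g p.1, act g p.2) ∈ SS := by
    rintro g p ⟨h1, h2, h3⟩
    refine ⟨hLL.inv g _ h1, hQ.inv g _ h2, fun h a1 => ?_⟩
    rw [mem_KK_tr] at a1
    have h4 := h3 _ a1
    have e1 : cj e b h = g * cj e b (g⁻¹ * h) * g⁻¹ := by rw [← cj_mul]; congr 1; group
    have e3 : cj e b h * g = g * cj e b (g⁻¹ * h) := by
      rw [e1]; group
    show act (cj e b h) (act g p.2) = π (tr g p.1)
    rw [← act_mul, e3, act_mul, h4, hπe]
  have hSn : SS.Nonempty := by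
    obtain ⟨r, hr⟩ := hLL.nonempty
    obtain ⟨F, hF⟩ := exists_finite hLL hT'
    obtain ⟨h, -, hh⟩ := hF r hr
    refine ⟨(r, act (cj e b h)⁻¹ (π r)), hr, hQ.inv _ _ (hπQ r), fun h' a1 => ?_⟩
    show act (cj e b h') (act (cj e b h)⁻¹ (π r)) = π r
    rw [← act_mul]
    exact h1 r hr h' a1 h hh b hb
  have := principle hQ hLL hπc (fun r _ => hπQ r) (fun g r _ => hπe g r) hSc
    (fun p hp => ⟨hp.1, hp.2.1⟩) hSi hSn r₀ hr₀
  exact this.2.2 h₀ hh₀

end Pool.Agent.AQA
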