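import Pool.Agent.AQA.Defs
import Pool.Agent.helper48.MK

/-!
# MP_00fcbb, PART A: Markov-Kakutani in the form needed
-/

set_option autoImplicit false

universe u v

namespace Pool.Agent.AQA

variable {G : Type u} [Group G] {I : Type v} [MulAction G I]

/-- **Markov-Kakutani** for elements of `G` which commute on `Q`. -/
theorem mk_commuting {Q : Set (I → ℝ)} (hQ : IsCompact Q) (hc : Convex ℝ Q) (hne : Q.Nonempty)
    (S : Set G) (hS : ∀ s ∈ S, ∀ x ∈ Q, act s x ∈ Q)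
    (hcomm : ∀ s ∈ S, ∀ t ∈ S, ∀ x ∈ Q, act s (act t x) = act t (act s x)) :
    ∃ x ∈ Q, ∀ s ∈ S, act s x = x := by
  obtain ⟨x, hx, h⟩ := Pool.Agent.helper48.MK.family hQ hc hne
    (fun s : S => Pool.Agent.helper48.MK.perm (I := I) (s : G)) (fun s x hx => hS s s.2 x hx)
    (fun s t x hx => hcomm s s.2 t t.2 x hx)
  exact ⟨x, hx, fun s hs => h ⟨s, hs⟩⟩

/-- Pairwise commuting elements of `G`. -/
theorem mk_commute {Q : Set (I → ℝ)} (hQ : IsCompact Q) (hc : Convex ℝ Q) (hne : Q.Nonempty)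
    (S : Set G) (hS : ∀ s ∈ S, ∀ x ∈ Q, act s x ∈ Q) (hcomm : ∀ s ∈ S, ∀ t ∈ S, s * t = t * s) :
    ∃ x ∈ Q, ∀ s ∈ S, act s x = x :=
  mk_commuting hQ hc hne S hS fun s hs t ht x _ => by rw [← act_mul, ← act_mul, hcomm s hs t ht]

/-- Almost abelian subgroups. -/
theorem mk_almostAbelian {Q : Set (I → ℝ)} (hQ : IsCompact Q) (hc : Convex ℝ Q)
    (hne : Q.Nonempty) (A A₀ : Subgroup G) (hA : ∀ a ∈ A, ∀ x ∈ Q, act a x ∈ Q)
    (hA₀ : A₀ ≤ A) (hfin : (A₀.subgroupOf A).FiniteIndex)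
    (hcomm : ∀ s ∈ A₀, ∀ t ∈ A₀, s * t = t * s) : ∃ x ∈ Q, ∀ a ∈ A, act a x = x :=
  Pool.Agent.helper48.MK.almostAbelian_fun hQ hc hne A A₀ hA hA₀ hfin hcomm

end Pool.Agent.AQA
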