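import Pool.Agent.AQA.StepFive
import Pool.Agent.AQA.Comb

/-!
# MP_00fcbb, PART A: the fixed point theorem

If `G = AB` with `A`, `B` almost abelian acts on `I`, then `G` has a fixed point in every nonempty
compact convex invariant subset of `I → ℝ`.
-/

set_option autoImplicit false

universe u v

namespace Pool.Agent.AQA

open Set Filter Topology

variable {G : Type u} [Group G] {I : Type v} [MulAction G I]

/-- the normal core of a subgroup of finite index of `B`, as a subgroup of `G` -/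
theorem exists_core {B K : Subgroup G} (hf : (K.subgroupOf B).FiniteIndex)
    (hc : ∀ x ∈ K, ∀ y ∈ K, x * y = y * x) :
    ∃ C : Subgroup G, C ≤ B ∧ (C.subgroupOf B).FiniteIndex ∧
      (∀ x ∈ C, ∀ y ∈ C, x * y = y * x) ∧ ∀ b ∈ B, ∀ c ∈ C, b * c * b⁻¹ ∈ C := by
  let C' : Subgroup B := (K.subgroupOf B).normalCore
  let C : Subgroup G := C'.map B.subtype
  have h1 : C.subgroupOf B = C' := by
    show (C'.map B.subtype).comap B.subtype = C'
    exact Subgroup.comap_map_eq_self_of_injective B.subtype_injective C'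
  have h2 : ∀ x ∈ C, x ∈ K := by
    rintro _ ⟨y, hy, rfl⟩
    exact Subgroup.mem_subgroupOf.1 ((K.subgroupOf B).normalCore_le hy)
  refine ⟨C, ?_, ?_, fun x hx y hy => hc x (h2 x hx) y (h2 y hy), ?_⟩
  · rintro _ ⟨y, -, rfl⟩
    exact y.2
  · rw [h1]
    infer_instance
  · rintro b hb _ ⟨y, hy, rfl⟩
    exact ⟨⟨b, hb⟩ * y * (⟨b, hb⟩ : B)⁻¹,
      (inferInstance : C'.Normal).conj_mem y hy ⟨b, hb⟩, rfl⟩

/-- a finite colouring by double cosets -/
theorem exists_lab {A B A₀ C : Subgroup G} (fA : (A₀.subgroupOf A).FiniteIndex)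
    (fB : (C.subgroupOf B).FiniteIndex) (h : ∀ g : G, ∃ a ∈ A, ∃ b ∈ B, g = a * b) :
    ∃ (κ : Type) (_ : Finite κ) (lab : G → κ),
      ∀ g g', lab g = lab g' → ∃ a ∈ A₀, ∃ c ∈ C, g' = a * g * c := by
  classical
  obtain ⟨nA, ⟨eA⟩⟩ := Finite.exists_equiv_fin (A ⧸ A₀.subgroupOf A)
  obtain ⟨nB, ⟨eB⟩⟩ := Finite.exists_equiv_fin (B ⧸ C.subgroupOf B)
  choose a ha b hb hab using h
  refine ⟨Fin nA × Fin nB, inferInstance, fun g => (eA (QuotientGroup.mk (⟨a g, ha g⟩ : A)⁻¹),
    eB (QuotientGroup.mk (⟨b g, hb g⟩ : B))), fun g g' hc => ?_⟩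
  rw [Prod.mk.injEq] at hc
  have h1 := eA.injective hc.1
  have h2 := eB.injective hc.2
  rw [QuotientGroup.eq] at h1 h2
  rw [Subgroup.mem_subgroupOf] at h1 h2
  have h1' : a g * (a g')⁻¹ ∈ A₀ := by simpa using h1
  have h2' : (b g)⁻¹ * b g' ∈ C := by simpa using h2
  refine ⟨a g' * (a g)⁻¹, ?_, (b g)⁻¹ * b g', h2', ?_⟩
  · have := inv_mem h1'
    simpa using this
  · calc g' = a g' * b g' := hab g'
      _ = a g' * (a g)⁻¹ * (a g * b g) * ((b g)⁻¹ * b g') := by group
      _ = a g' * (a g)⁻¹ * g * ((b g)⁻¹ * b g') := by rw [← hab g]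

/-- **The fixed point theorem.** -/
theorem fixedPoint {A B : Subgroup G} (hAB : ∀ g : G, ∃ a ∈ A, ∃ b ∈ B, g = a * b)
    (hA : ∃ H : Subgroup G, H ≤ A ∧ (H.subgroupOf A).FiniteIndex ∧
      ∀ x ∈ H, ∀ y ∈ H, x * y = y * x)
    (hB : ∃ K : Subgroup G, K ≤ B ∧ (K.subgroupOf B).FiniteIndex ∧
      ∀ x ∈ K, ∀ y ∈ K, x * y = y * x)
    {Q₀ : Set (I → ℝ)} (hQ₀ : CCI G Q₀) (hn : Q₀.Nonempty) :
    ∃ x ∈ Q₀, ∀ g : G, act g x = x := by
  classical
  obtain ⟨A₀, hA₀, fA, cA⟩ := hA
  obtain ⟨K, -, fK, cK⟩ := hB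
  obtain ⟨C, hCB, fC, cC, nC⟩ := exists_core fK cK
  obtain ⟨Q, hQQ, hQ⟩ := exists_irred hQ₀ hn
  obtain ⟨μ, hμ, hAμ⟩ := Pool.Agent.helper48.MK.almostAbelian_fun hQ.compact hQ.convex
    hQ.nonempty A A₀ (fun a _ x hx => hQ.inv a x hx) hA₀ fA cA
  -- the kernel of the action on `Q`
  let N : Subgroup G :=
    { carrier := {g | ∀ x ∈ Q, act g x = x}
      mul_mem' := by
        intro g h hg hh x hx
        rw [act_mul, hh x hx, hg x hx]
      one_mem' := fun x _ => act_one x
      inv_mem' := by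
        intro g hg x hx
        have := hg _ (hQ.inv g⁻¹ x hx)
        rw [← act_mul, mul_inv_cancel, act_one] at this
        exact this.symm }
  by_cases hN : (N.subgroupOf C).FiniteIndex
  · -- the orbit of `μ` is finite
    let S : Subgroup G :=
      { carrier := {g | act g μ = μ}
        mul_mem' := by
          intro g h hg hh
          show act (g * h) μ = μ
          rw [act_mul, hh, hg]
        one_mem' := act_one μ
        inv_mem' := by
          intro g hg
          show act g⁻¹ μ = μ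
          have h1 : act g μ = μ := hg
          conv_lhs => rw [← h1]
          rw [← act_mul, inv_mul_cancel, act_one] }
    have hNS : N ≤ S := fun g hg => hg μ hμ
    have hfin : ((N ⊓ C).subgroupOf B).FiniteIndex := by
      have h1 : (N ⊓ C).relIndex C * C.relIndex B = (N ⊓ C).relIndex B :=
        Subgroup.relIndex_mul_relIndex _ _ _ inf_le_right hCB
      have h2 : (N ⊓ C).relIndex C ≠ 0 := by
        rw [Subgroup.inf_relIndex_right]
        exact hN.index_ne_zero
      have h3 : C.relIndex B ≠ 0 := fC.index_ne_zero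
      exact ⟨by
        show (N ⊓ C).relIndex B ≠ 0
        rw [← h1]
        exact mul_ne_zero h2 h3⟩
    have hSfin : S.FiniteIndex := by
      let f : B ⧸ (N ⊓ C).subgroupOf B → G ⧸ S := Quotient.lift
        (fun b : B => (QuotientGroup.mk (b : G) : G ⧸ S)) (by
          intro x y hxy
          have h1 : x⁻¹ * y ∈ (N ⊓ C).subgroupOf B := QuotientGroup.leftRel_apply.1 hxy
          rw [QuotientGroup.eq]
          exact hNS (Subgroup.mem_subgroupOf.1 h1).1)
      have hf : Function.Surjective f := by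
        intro q
        obtain ⟨g, rfl⟩ := QuotientGroup.mk_surjective q
        obtain ⟨a, ha, b, hb, hg⟩ := hAB g⁻¹
        refine ⟨QuotientGroup.mk (⟨b, hb⟩⁻¹ : B), ?_⟩
        show (QuotientGroup.mk ((⟨b, hb⟩⁻¹ : B) : G) : G ⧸ S) = QuotientGroup.mk g
        rw [QuotientGroup.eq]
        have e1 : ((⟨b, hb⟩⁻¹ : B) : G)⁻¹ * g = a⁻¹ := by
          have : g = b⁻¹ * a⁻¹ := by
            rw [← mul_inv_rev, ← hg, inv_inv]
          rw [this]
          simp
        rw [e1]
        exact hAμ _ (inv_mem ha)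
      have : Finite (G ⧸ S) := Finite.of_surjective f hf
      exact Subgroup.finiteIndex_of_finite_quotient
    obtain ⟨x, hx, hfix⟩ := Pool.Agent.helper48.MK.average (H := G) hQ.convex
      Pool.Agent.helper48.MK.perm (fun g x hx => hQ.inv g x hx) S μ hμ (fun k hk => hk)
    exact ⟨x, hQQ hx, fun g => hfix g⟩
  · exfalso
    obtain ⟨κ, _, lab, hlab⟩ := exists_lab fA fC hAB
    obtain ⟨LL, hLL⟩ := exists_minU (G := G)
    obtain ⟨e, he, heN, T, hT', hT⟩ := comb lab hlab cA cC hCB nC fC hN hLL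
    obtain ⟨π, hπc, hπQ, hπe⟩ := exists_pi hQ.toCCI hQ.nonempty
    obtain ⟨F, hF⟩ := exists_finite hLL hT'
    have h2 := step_two hQ hLL hπc hπQ hπe (B := B) (e := e) hT hT'
    exact heN (step_five hQ hLL hπQ hπe hAB hμ hAμ h2 hF)

end Pool.Agent.AQA
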