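import Pool.Agent.AQA.Defs

/-!
# MP_00fcbb, PART A: the principle A2

`Q` irreducible compact convex, `LL` a minimal set of ultrafilters, `π : LL → Q` a continuous
equivariant map. Every nonempty closed invariant subset of `LL × Q` contains the graph of `π`.
-/

set_option autoImplicit false

universe u v

namespace Pool.Agent.AQA

open Set Filter Topology

variable {G : Type u} [Group G] {I : Type v} [MulAction G I]

/-- the sum of the squares of the coordinates in `J` -/
def sq (J : Finset I) (x : I → ℝ) : ℝ := ∑ i ∈ J, x i ^ 2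

theorem continuous_sq (J : Finset I) : Continuous (sq J) := by
  unfold sq
  exact continuous_finsetSum _ fun i _ => (continuous_apply i).pow 2

theorem sq_nonneg' (J : Finset I) (x : I → ℝ) : 0 ≤ sq J x :=
  Finset.sum_nonneg fun _ _ => sq_nonneg _

theorem sq_mid (J : Finset I) (x y : I → ℝ) :
    sq J ((1 / 2 : ℝ) • (x + y)) = (1 / 2) * sq J x + (1 / 2) * sq J y - (1 / 4) * sq J (x - y) := by
  unfold sq
  rw [Finset.mul_sum, Finset.mul_sum, Finset.mul_sum, ← Finset.sum_add_distrib,
    ← Finset.sum_sub_distrib]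
  refine Finset.sum_congr rfl fun i _ => ?_
  simp only [Pi.smul_apply, Pi.add_apply, Pi.sub_apply, smul_eq_mul]
  ring

theorem sq_convex (J : Finset I) (x y : I → ℝ) {a b : ℝ} (ha : 0 ≤ a) (hb : 0 ≤ b)
    (hab : a + b = 1) : sq J (a • x + b • y) ≤ a * sq J x + b * sq J y := by
  unfold sq
  rw [Finset.mul_sum, Finset.mul_sum, ← Finset.sum_add_distrib]
  refine Finset.sum_le_sum fun i _ => ?_
  simp only [Pi.smul_apply, Pi.add_apply, smul_eq_mul]
  have : a = 1 - b := by linarith
  subst this
  nlinarith [mul_nonneg (mul_nonneg ha hb) (sq_nonneg (x i - y i))]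

/-- **The principle A2.** -/
theorem principle {Q : Set (I → ℝ)} (hQ : Irred G Q) {LL : Set (Ultrafilter G)} (hLL : MinU LL)
    {π : Ultrafilter G → (I → ℝ)} (hπc : Continuous π) (hπQ : ∀ r ∈ LL, π r ∈ Q)
    (hπe : ∀ g : G, ∀ r ∈ LL, π (tr g r) = act g (π r))
    {SS : Set (Ultrafilter G × (I → ℝ))} (hSc : IsClosed SS)
    (hSs : ∀ p ∈ SS, p.1 ∈ LL ∧ p.2 ∈ Q)
    (hSi : ∀ g : G, ∀ p ∈ SS, (tr g p.1, act g p.2) ∈ SS) (hSn : SS.Nonempty) :
    ∀ r ∈ LL, (r, π r) ∈ SS := by
  classical
  have hScomp : IsCompact SS := by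
    refine (hLL.closed.isCompact.prod hQ.compact).of_isClosed_subset hSc ?_
    intro p hp
    exact ⟨(hSs p hp).1, (hSs p hp).2⟩
  -- first: the graph meets `SS`
  have key : ∃ p ∈ SS, p.2 = π p.1 := by
    by_contra hcon
    push Not at hcon
    have hcov : SS ⊆ ⋃ i : I, {p : Ultrafilter G × (I → ℝ) | p.2 i ≠ π p.1 i} := by
      intro p hp
      obtain ⟨i, hi⟩ := Function.ne_iff.1 (hcon p hp)
      exact mem_iUnion.2 ⟨i, hi⟩
    have hopen : ∀ i : I, IsOpen {p : Ultrafilter G × (I → ℝ) | p.2 i ≠ π p.1 i} := by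
      intro i
      have h1 : Continuous fun p : Ultrafilter G × (I → ℝ) => p.2 i :=
        (continuous_apply i).comp continuous_snd
      have h2 : Continuous fun p : Ultrafilter G × (I → ℝ) => π p.1 i :=
        (continuous_apply i).comp (hπc.comp continuous_fst)
      exact (isClosed_eq h1 h2).isOpen_compl
    obtain ⟨J, hJ⟩ := hScomp.elim_finite_subcover _ hopen hcov
    -- the minimum of the distance
    have hcont : Continuous fun p : Ultrafilter G × (I → ℝ) => sq J (p.2 - π p.1) :=
      (continuous_sq J).comp (continuous_snd.sub (hπc.comp continuous_fst))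
    obtain ⟨p₁, hp₁, hmin⟩ := hScomp.exists_isMinOn hSn hcont.continuousOn
    have hpos : 0 < sq J (p₁.2 - π p₁.1) := by
      obtain ⟨i, hi⟩ := mem_iUnion.1 (hJ hp₁)
      obtain ⟨hiJ, hi⟩ := mem_iUnion.1 hi
      have h3 : 0 < (p₁.2 - π p₁.1) i ^ 2 := by
        have : (p₁.2 - π p₁.1) i ≠ 0 := by
          simpa [sub_eq_zero] using hi
        positivity
      refine lt_of_lt_of_le h3 ?_
      unfold sq
      exact Finset.single_le_sum (f := fun i => (p₁.2 - π p₁.1) i ^ 2)
        (fun i _ => sq_nonneg _) hiJ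
    set δ := sq J (p₁.2 - π p₁.1) with hδ
    have hδle : ∀ p ∈ SS, δ ≤ sq J (p.2 - π p.1) := fun p hp => hmin hp
    -- the maximum of `sq J` on `Q`
    obtain ⟨x₀, hx₀, hmax⟩ := hQ.compact.exists_isMaxOn hQ.nonempty (continuous_sq J).continuousOn
    set M := sq J x₀ with hM
    have hMle : ∀ x ∈ Q, sq J x ≤ M := fun x hx => hmax hx
    obtain ⟨p, hp⟩ := hSn
    obtain ⟨hp1, hp2⟩ := hSs p hp
    set η : I → ℝ := (1 / 2 : ℝ) • (p.2 + π p.1) with hη
    have hηQ : η ∈ Q := by
      have := hQ.convex hp2 (hπQ _ hp1) (by norm_num : (0 : ℝ) ≤ 1 / 2)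
        (by norm_num : (0 : ℝ) ≤ 1 / 2) (by norm_num)
      rw [hη, smul_add]
      exact this
    have hηle : ∀ g : G, sq J (act g η) ≤ M - δ / 4 := by
      intro g
      have e1 : act g η = (1 / 2 : ℝ) • (act g p.2 + act g (π p.1)) := by
        rw [hη, act_smul, act_add]
      rw [e1, sq_mid]
      have h1 := hMle _ (hQ.inv g _ hp2)
      have h2 := hMle _ (hQ.inv g _ (hπQ _ hp1))
      have h3 := hδle _ (hSi g p hp)
      rw [hπe g _ hp1] at h3
      simp only at h3
      linarith
    have hQ' : {x ∈ Q | ∀ g : G, sq J (act g x) ≤ M - δ / 4} = Q := by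
      apply hQ.irred
      · exact fun x hx => hx.1
      · exact ⟨η, hηQ, hηle⟩
      · have : {x ∈ Q | ∀ g : G, sq J (act g x) ≤ M - δ / 4} =
            Q ∩ ⋂ g : G, {x | sq J (act g x) ≤ M - δ / 4} := by
          ext x; simp
        rw [this]
        refine hQ.compact.isClosed.inter (isClosed_iInter fun g => ?_)
        exact isClosed_le ((continuous_sq J).comp (continuous_act g)) continuous_const
      · intro x hx y hy a b ha hb hab
        refine ⟨hQ.convex hx.1 hy.1 ha hb hab, fun g => ?_⟩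
        have h1 := hx.2 g
        have h2 := hy.2 g
        rw [act_add, act_smul, act_smul]
        refine (sq_convex J _ _ ha hb hab).trans ?_
        have h3 := mul_le_mul_of_nonneg_left h1 ha
        have h4 := mul_le_mul_of_nonneg_left h2 hb
        have h5 : a * (M - δ / 4) + b * (M - δ / 4) = M - δ / 4 := by rw [← add_mul, hab, one_mul]
        linarith
      · intro g x hx
        refine ⟨hQ.inv g x hx.1, fun h => ?_⟩
        rw [← act_mul]
        exact hx.2 (h * g)
    have h6 : x₀ ∈ {x ∈ Q | ∀ g : G, sq J (act g x) ≤ M - δ / 4} := by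
      rw [hQ']
      exact hx₀
    have h7 := h6.2 1
    rw [act_one] at h7
    linarith
  -- second: minimality
  have hK : {r ∈ LL | (r, π r) ∈ SS} = LL := by
    apply hLL.min
    · exact fun r hr => hr.1
    · obtain ⟨p, hp, hp'⟩ := key
      refine ⟨p.1, (hSs p hp).1, ?_⟩
      rw [← hp']
      exact hp
    · exact hLL.closed.inter (hSc.preimage (continuous_id.prodMk hπc))
    · intro g r hr
      refine ⟨hLL.inv g r hr.1, ?_⟩
      rw [hπe g r hr.1]
      exact hSi g _ hr.2
  intro r hr
  have : r ∈ {r ∈ LL | (r, π r) ∈ SS} := by rw [hK]; exact hr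
  exact this.2

end Pool.Agent.AQA
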