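import Pool.Agent.AQA.Fix

/-!
# MP_00fcbb, PART A: the step A5
-/

set_option autoImplicit false

universe u v

namespace Pool.Agent.AQA

open Set Filter Topology

variable {G : Type u} [Group G] {I : Type v} [MulAction G I]

/-- `(g (h e^b h⁻¹) x)_i - (g x)_i` -/
def val (e : G) (i : I) (g b h : G) (x : I → ℝ) : ℝ := act g (act (cj e b h) x) i - act g x i

theorem continuous_val (e : G) (i : I) (g b h : G) :
    Continuous (val e i g b h : (I → ℝ) → ℝ) :=
  ((continuous_apply i).comp ((continuous_act g).comp (continuous_act _))).sub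
    ((continuous_apply i).comp (continuous_act g))

theorem val_comb (e : G) (i : I) (g b h : G) (x y : I → ℝ) (s t : ℝ) :
    val e i g b h (s • x + t • y) = s * val e i g b h x + t * val e i g b h y := by
  unfold val
  simp only [act_add, act_smul, Pi.add_apply, Pi.smul_apply, smul_eq_mul]
  ring

theorem val_act (e : G) (i : I) (g b h k : G) (x : I → ℝ) :
    val e i g b h (act k x) = val e i (g * k) b (k⁻¹ * h) x := by
  unfold val
  have e1 : cj e b h = k * cj e b (k⁻¹ * h) * k⁻¹ := by rw [← cj_mul]; congr 1; group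
  have e2 : g * cj e b h * k = g * k * cj e b (k⁻¹ * h) := by rw [e1]; group
  rw [← act_mul, ← act_mul, e2, ← act_mul, ← act_mul]

theorem abs_val_convex (e : G) (i : I) (g b h : G) (x y : I → ℝ) {s t : ℝ} (hs : 0 ≤ s)
    (ht : 0 ≤ t) :
    |val e i g b h (s • x + t • y)| ≤ s * |val e i g b h x| + t * |val e i g b h y| := by
  rw [val_comb]
  refine (abs_add_le _ _).trans ?_
  rw [abs_mul, abs_mul, abs_of_nonneg hs, abs_of_nonneg ht]

/-- **A5.** -/
theorem step_five {Q : Set (I → ℝ)} (hQ : Irred G Q) {LL : Set (Ultrafilter G)} (hLL : MinU LL)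
    {π : Ultrafilter G → (I → ℝ)} (hπQ : ∀ r, π r ∈ Q)
    (hπe : ∀ (g : G) (r : Ultrafilter G), π (tr g r) = act g (π r))
    {A B : Subgroup G} (hAB : ∀ g : G, ∃ a ∈ A, ∃ b ∈ B, g = a * b)
    {μ : I → ℝ} (hμ : μ ∈ Q) (hAμ : ∀ a ∈ A, act a μ = μ) {e : G} {T : Set G}
    (hfix : ∀ r ∈ LL, ∀ h ∈ KK T r, ∀ b ∈ B, act (cj e b h) (π r) = π r)
    {F : Finset G} (hF : ∀ r ∈ LL, ∃ h ∈ F, h ∈ KK T r) :
    ∀ x ∈ Q, act e x = x := by
  classical
  intro x hx
  funext i
  -- bound of the coordinate `i` on `Q`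
  obtain ⟨R, hR⟩ : ∃ R : ℝ, ∀ x ∈ Q, |x i| ≤ R := by
    obtain ⟨y, hy, hmax⟩ := hQ.compact.exists_isMaxOn hQ.nonempty
      ((continuous_apply i).abs.continuousOn)
    exact ⟨|y i|, fun x hx => hmax hx⟩
  have hvalR : ∀ y ∈ Q, ∀ g b h : G, |val e i g b h y| ≤ 2 * R := by
    intro y hy g b h
    unfold val
    have h1 := hR _ (hQ.inv g _ (hQ.inv (cj e b h) _ hy))
    have h2 := hR _ (hQ.inv g _ hy)
    have h3 := abs_sub (act g (act (cj e b h) y) i) (act g y i)
    linarith
  let S₀ : Set ℝ := {y | ∃ g : G, ∃ b ∈ B, y = |val e i g b 1 μ|}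
  have hS₀b : BddAbove S₀ := ⟨2 * R, by rintro _ ⟨g, b, -, rfl⟩; exact hvalR μ hμ g b 1⟩
  have hS₀n : S₀.Nonempty := ⟨_, 1, 1, one_mem B, rfl⟩
  set c := sSup S₀ with hc
  have hc0 : 0 ≤ c := by
    obtain ⟨y, hy⟩ := hS₀n
    have h1 := le_csSup hS₀b hy
    obtain ⟨g, b, -, rfl⟩ := hy
    exact (abs_nonneg _).trans h1
  -- the values at `μ`
  have hvalμ : ∀ g a b₀ b : G, a ∈ A → val e i g b (a * b₀) μ = val e i (g * a) (b₀ * b) 1 μ := by
    intro g a b₀ b ha
    have h1 := val_act e i g b (a * b₀) a (act a⁻¹ μ)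
    rw [← act_mul, mul_inv_cancel, act_one, hAμ _ (inv_mem ha)] at h1
    rw [h1]
    unfold val
    have : cj e b (a⁻¹ * (a * b₀)) = cj e (b₀ * b) 1 := by unfold cj; group
    rw [this]
  have hle : ∀ g b h : G, b ∈ B → |val e i g b h μ| ≤ c := by
    intro g b h hb
    obtain ⟨a, ha, b₀, hb₀, rfl⟩ := hAB h
    rw [hvalμ g a b₀ b ha]
    exact le_csSup hS₀b ⟨g * a, b₀ * b, mul_mem hb₀ hb, rfl⟩
  have hsup : ∀ ε > 0, ∀ h : G, ∃ g : G, ∃ b ∈ B, c - ε < |val e i g b h μ| := by
    intro ε hε h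
    obtain ⟨y, ⟨g, b, hb, rfl⟩, hy⟩ := exists_lt_of_lt_csSup hS₀n (by linarith : c - ε < c)
    obtain ⟨a, ha, b₀, hb₀, rfl⟩ := hAB h
    refine ⟨g * a⁻¹, b₀⁻¹ * b, mul_mem (inv_mem hb₀) hb, ?_⟩
    rw [hvalμ _ a b₀ _ ha]
    have e1 : g * a⁻¹ * a = g := by group
    have e2 : b₀ * (b₀⁻¹ * b) = b := by group
    rw [e1, e2]
    exact hy
  -- the bound holds on `Q`
  have hQc : {y ∈ Q | ∀ g b h : G, b ∈ B → |val e i g b h y| ≤ c} = Q := by
    apply hQ.irred
    · exact fun y hy => hy.1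
    · exact ⟨μ, hμ, hle⟩
    · have : {y ∈ Q | ∀ g b h : G, b ∈ B → |val e i g b h y| ≤ c} =
          Q ∩ ⋂ g : G, ⋂ b : G, ⋂ h : G, ⋂ _ : b ∈ B, {y | |val e i g b h y| ≤ c} := by
        ext y; simp
      rw [this]
      refine hQ.compact.isClosed.inter (isClosed_iInter fun g => isClosed_iInter fun b =>
        isClosed_iInter fun h => isClosed_iInter fun _ => ?_)
      exact isClosed_le (continuous_val e i g b h).abs continuous_const
    · intro y hy z hz s t hs ht hst
      refine ⟨hQ.convex hy.1 hz.1 hs ht hst, fun g b h hb => ?_⟩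
      refine (abs_val_convex e i g b h y z hs ht).trans ?_
      have h1 := mul_le_mul_of_nonneg_left (hy.2 g b h hb) hs
      have h2 := mul_le_mul_of_nonneg_left (hz.2 g b h hb) ht
      have h3 : s * c + t * c = c := by rw [← add_mul, hst, one_mul]
      linarith
    · intro k y hy
      refine ⟨hQ.inv k y hy.1, fun g b h hb => ?_⟩
      rw [val_act]
      exact hy.2 _ _ _ hb
  -- the sum over `F`
  have hsum : ∀ γ β : G → G, (∀ h, β h ∈ B) →
      ∑ h ∈ F, |val e i (γ h) (β h) h μ| ≤ ((F.card : ℝ) - 1) * c := by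
    intro γ β hβ
    have hP : closure (convexHull ℝ (π '' LL)) ⊆
        {y | ∑ h ∈ F, |val e i (γ h) (β h) h y| ≤ ((F.card : ℝ) - 1) * c} := by
      refine closure_minimal (convexHull_min ?_ ?_) ?_
      · rintro _ ⟨r, hr, rfl⟩
        obtain ⟨h₀, hh₀, hK⟩ := hF r hr
        show ∑ h ∈ F, |val e i (γ h) (β h) h (π r)| ≤ ((F.card : ℝ) - 1) * c
        rw [← Finset.add_sum_erase F _ hh₀]
        have h1 : val e i (γ h₀) (β h₀) h₀ (π r) = 0 := by
          unfold val
          rw [hfix r hr h₀ hK (β h₀) (hβ h₀), sub_self]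
        rw [h1, abs_zero, zero_add]
        have h2 : ∑ h ∈ F.erase h₀, |val e i (γ h) (β h) h (π r)| ≤
            ((F.erase h₀).card : ℝ) * c := by
          rw [← nsmul_eq_mul]
          refine Finset.sum_le_card_nsmul _ _ _ fun h _ => ?_
          have h3 : π r ∈ {y ∈ Q | ∀ g b h : G, b ∈ B → |val e i g b h y| ≤ c} := by
            rw [hQc]; exact hπQ r
          exact h3.2 _ _ _ (hβ h)
        have h4 : ((F.erase h₀).card : ℝ) = (F.card : ℝ) - 1 := by
          rw [Finset.card_erase_of_mem hh₀, Nat.cast_sub (Finset.card_pos.2 ⟨h₀, hh₀⟩)]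
          simp
        rw [h4] at h2
        exact h2
      · intro y hy z hz s t hs ht hst
        show ∑ h ∈ F, |val e i (γ h) (β h) h (s • y + t • z)| ≤ ((F.card : ℝ) - 1) * c
        have h1 : ∑ h ∈ F, |val e i (γ h) (β h) h (s • y + t • z)| ≤
            s * ∑ h ∈ F, |val e i (γ h) (β h) h y| + t * ∑ h ∈ F, |val e i (γ h) (β h) h z| := by
          rw [Finset.mul_sum, Finset.mul_sum, ← Finset.sum_add_distrib]
          exact Finset.sum_le_sum fun h _ => abs_val_convex e i _ _ h y z hs ht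
        have h2 := mul_le_mul_of_nonneg_left hy.out hs
        have h3 := mul_le_mul_of_nonneg_left hz.out ht
        have h5 : s * (((F.card : ℝ) - 1) * c) + t * (((F.card : ℝ) - 1) * c) =
            ((F.card : ℝ) - 1) * c := by rw [← add_mul, hst, one_mul]
        linarith
      · exact isClosed_le (continuous_finsetSum _ fun h _ => (continuous_val e i _ _ h).abs)
          continuous_const
    have hcl := hQ.closure_convexHull (P := π '' LL) (by rintro _ ⟨r, -, rfl⟩; exact hπQ r)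
      (hLL.nonempty.image π) (by
        rintro g _ ⟨r, hr, rfl⟩
        exact ⟨tr g r, hLL.inv g r hr, hπe g r⟩)
    rw [hcl] at hP
    exact hP hμ
  -- so `c = 0`
  have hcle : c ≤ 0 := by
    by_contra hcpos
    push Not at hcpos
    have hn1 : 1 ≤ F.card := by
      obtain ⟨r, hr⟩ := hLL.nonempty
      obtain ⟨h, hh, -⟩ := hF r hr
      exact Finset.card_pos.2 ⟨h, hh⟩
    have hn : (1 : ℝ) ≤ F.card := by exact_mod_cast hn1
    set n : ℝ := (F.card : ℝ) with hn'
    have hε : 0 < c / (n + 1) := by positivity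
    choose γ β hβ hγ using hsup (c / (n + 1)) hε
    have h1 := hsum γ β hβ
    have h2 : (F.card : ℝ) * (c - c / (n + 1)) ≤ ∑ h ∈ F, |val e i (γ h) (β h) h μ| := by
      rw [← nsmul_eq_mul]
      exact Finset.card_nsmul_le_sum _ _ _ fun h _ => (hγ h).le
    rw [← hn'] at h2
    have h3 : n * (c - c / (n + 1)) ≤ (n - 1) * c := h2.trans h1
    have h4 : n * (c / (n + 1)) < c := by
      rw [← mul_div_assoc, div_lt_iff₀ (by linarith)]
      nlinarith
    nlinarith
  have h1 : x ∈ {y ∈ Q | ∀ g b h : G, b ∈ B → |val e i g b h y| ≤ c} := by rw [hQc]; exact hx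
  have h2 := (h1.2 1 1 1 (one_mem B)).trans hcle
  have h3 : val e i 1 1 1 x = 0 := abs_nonpos_iff.1 h2
  unfold val at h3
  have h4 : cj e 1 1 = e := by unfold cj; group
  rw [act_one, act_one, h4] at h3
  linarith

end Pool.Agent.AQA
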